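import Pool.Agent.N639.FS.Stm
import Pool.Agent.Y933.KD.Leb2

/-!
# Project FS: disjoint windows of a random real number are independent
-/

set_option autoImplicit false

namespace Pool.Agent.N639.FS

open Finset Real MeasureTheory Pool.Agent.Y933.KD

lemma cnd_add (b w p n c : ℕ) (x : ℝ) : cnd b w (p + n) c x = cnd b w n c (Tb b p x) := by
  unfold cnd
  rw [wd_add]

lemma measurable_cnd (b w n c : ℕ) : Measurable (cnd b w n c) := by
  have : cnd b w n c = (fun m : ℕ => if m = c then (1 : ℝ) else 0) ∘ wd b w n := rfl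
  rw [this]
  exact (measurable_of_countable _).comp (measurable_wd b w n)

lemma abs_cnd_le (b w n c : ℕ) (x : ℝ) : |cnd b w n c x| ≤ 1 := by
  unfold cnd
  split_ifs <;> simp

lemma cnd_nonneg (b w n c : ℕ) (x : ℝ) : 0 ≤ cnd b w n c x := by
  unfold cnd
  split_ifs <;> simp

lemma dep_cnd {b w n p : ℕ} (hb : 1 ≤ b) (h : n + w ≤ p) (c : ℕ) : Dep b p (cnd b w n c) :=
  (dep_wd hb h).comp (fun m : ℕ => if m = c then (1 : ℝ) else 0)

lemma dep_prod {ι : Type*} {b p : ℕ} (s : Finset ι) (A : ι → ℝ → ℝ) (hA : ∀ i ∈ s, Dep b p (A i)) :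
    Dep b p (fun x => ∏ i ∈ s, A i x) := by
  classical
  induction s using Finset.induction_on with
  | empty => exact ⟨fun _ => 1, fun x _ => by simp⟩
  | insert a s ha ih =>
    simp only [prod_insert ha]
    exact (hA a (mem_insert_self _ _)).comp₂ (ih fun i hi => hA i (mem_insert_of_mem hi))
      (fun u v => u * v)

lemma int_cnd {b : ℕ} (hb : 1 ≤ b) (w n : ℕ) {c : ℕ} (hc : c < b ^ w) :
    ∫ x, cnd b w n c x ∂Leb = 1 / (b : ℝ) ^ w := by
  have := int_word hb w n (fun m : ℕ => if m = c then (1 : ℝ) else 0)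
  rw [Finset.sum_ite_eq', if_pos (mem_range.2 hc)] at this
  exact this

theorem l1 : St_L1 := by
  intro b w hb T
  induction T using Finset.induction_on_max with
  | empty => intro _ c _; simp
  | insert m T hm ih =>
    intro hT c hc
    have hmT : m ∉ T := fun h => lt_irrefl m (hm m h)
    have ih' := ih (fun n hn k hk => hT n (mem_insert_of_mem hn) k (mem_insert_of_mem hk)) c hc
    have h1 : ∫ x, ∏ n ∈ insert m T, cnd b w n (c n) x ∂Leb =
        ∫ x, (fun x => ∏ n ∈ T, cnd b w n (c n) x) x * (cnd b w 0 (c m)) (Tb b m x) ∂Leb := by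
      congr 1
      funext x
      rw [prod_insert hmT, mul_comm, ← cnd_add, Nat.add_zero]
    rw [h1, renewal_real hb (p := m) (dep_prod _ _ fun n hn => dep_cnd hb
      (hT n (mem_insert_of_mem hn) m (mem_insert_self _ _) (hm n hn)) _) (measurable_cnd _ _ _ _)
      (C := 1) (abs_cnd_le _ _ _ _), ih', int_cnd hb w 0 (hc m), card_insert_of_notMem hmT, pow_succ]

end Pool.Agent.N639.FS
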