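import Pool.Agent.N639.FS.Stm
import Pool.Agent.Y933.KD.Fam
import Pool.Agent.Y933.KD.Mult
import Pool.Agent.Y933.KD.Roots

/-!
# Project FS: the families
-/

set_option autoImplicit false

namespace Pool.Agent.N639.FS

open Finset Real MeasureTheory Pool.Agent.Y933.KD

/-- integral combinations of real numbers one of which is algebraic and irrational -/
theorem tests_SM {d : ℕ} (ω : Fin d → ℝ) (j0 : Fin d) (halg : IsAlgebraic ℚ (ω j0))
    (hirr : Irrational (ω j0)) (B : ℕ) (A : ℝ) : Tests B A (SM ω) :=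
  ⟨SM_prob ω, fun k => power (SM_prob ω) (good_mult ω j0 halg hirr B k A)⟩

/-- the numbers `ω m ^ c + y` -/
theorem tests_SR {c ε : ℝ} (hc0 : 0 < c) (hc : ∀ m : ℕ, c ≠ m) (hε : 0 < ε) (W : ℝ) (B : ℕ)
    (A : ℝ) : Tests B A (SR c ε W) :=
  ⟨SR_prob c ε W, fun k => power (SR_prob c ε W) (good_root hc0 hc hε W B k A)⟩

end Pool.Agent.N639.FS
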