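import Pool.Agent.N639.FS.TR
import Pool.Agent.N639.FS.L1

/-!
# Project FS: the longest run of a digit
-/

set_option autoImplicit false

namespace Pool.Agent.N639.FS

open Finset Real MeasureTheory Pool.Agent.Y933.KD Filter Topology

/-- the word `d d … d` of length `w` -/
def rp (b w d : ℕ) : ℕ := ∑ i ∈ range w, d * b ^ i

lemma rp_lt {b d : ℕ} (hd : d < b) (w : ℕ) : rp b w d < b ^ w := by
  unfold rp
  induction w with
  | zero => simp
  | succ w ih =>
    rw [sum_range_succ, pow_succ]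
    have h1 : d * b ^ w + b ^ w ≤ b ^ w * b := by
      calc d * b ^ w + b ^ w = (d + 1) * b ^ w := by ring
        _ ≤ b * b ^ w := Nat.mul_le_mul_right _ hd
        _ = b ^ w * b := by ring
    omega

lemma rp_div {b d : ℕ} (hd : d < b) (w k : ℕ) : rp b (w + k) d / b ^ k = rp b w d := by
  have hb : 0 < b := by omega
  have h1 : rp b (w + k) d = b ^ k * rp b w d + rp b k d := by
    unfold rp
    rw [Nat.add_comm w k, sum_range_add, mul_sum, Nat.add_comm]
    congr 1
    refine sum_congr rfl fun i _ => ?_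
    rw [pow_add]
    ring
  rw [h1, Nat.mul_add_div (by positivity), Nat.div_eq_of_lt (rp_lt hd k), Nat.add_zero]

/-- the beginning of a word -/
lemma wd_begin {b : ℕ} (hb : 1 ≤ b) (w k n : ℕ) (x : ℝ) : wd b (w + k) n x / b ^ k = wd b w n x := by
  unfold wd
  have hb' : (0 : ℝ) < b := by exact_mod_cast hb
  rw [← Nat.floor_div_natCast]
  congr 1
  push_cast
  rw [pow_add]
  have : (b : ℝ) ^ k ≠ 0 := by positivity
  field_simp

/-- Chebyshev's inequality for the value zero -/
lemma prob_zero_le (P : Measure ℝ) [IsProbabilityMeasure P] {f : ℝ → ℝ} (hf : Measurable f) {K μ : ℝ}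
    (hK : ∀ x, |f x| ≤ K) (hμ : 0 < μ) :
    P.real {x | f x = 0} ≤ (∫ x, (f x) ^ 2 ∂P - 2 * μ * ∫ x, f x ∂P + μ ^ 2) / μ ^ 2 := by
  have hi1 : Integrable f P := Integrable.of_bound (C := K) hf.aestronglyMeasurable
    (Eventually.of_forall fun x => by rw [Real.norm_eq_abs]; exact hK x)
  have hi2 : Integrable (fun x => (f x) ^ 2) P := by
    refine Integrable.of_bound (C := K ^ 2) (hf.pow_const 2).aestronglyMeasurable
      (Eventually.of_forall fun x => ?_)
    rw [Real.norm_eq_abs, abs_pow]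
    exact pow_le_pow_left₀ (abs_nonneg _) (hK x) 2
  have h1 : ∫ x, (f x - μ) ^ 2 ∂P = ∫ x, (f x) ^ 2 ∂P - 2 * μ * ∫ x, f x ∂P + μ ^ 2 := by
    have h2 : ∀ x, (f x - μ) ^ 2 = (f x) ^ 2 - 2 * μ * f x + μ ^ 2 := fun x => by ring
    simp only [h2]
    have e1 : ∫ x, ((f x) ^ 2 - 2 * μ * f x + μ ^ 2) ∂P =
        ∫ x, ((f x) ^ 2 - 2 * μ * f x) ∂P + ∫ _x, μ ^ 2 ∂P :=
      integral_add (hi2.sub (hi1.const_mul (2 * μ))) (integrable_const _)
    have e2 : ∫ x, ((f x) ^ 2 - 2 * μ * f x) ∂P = ∫ x, (f x) ^ 2 ∂P - ∫ x, 2 * μ * f x ∂P :=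
      integral_sub hi2 (hi1.const_mul (2 * μ))
    rw [e1, e2, integral_const_mul, integral_const]
    simp
  rw [← h1, le_div_iff₀ (by positivity), mul_comm]
  have hi3 : Integrable (fun x => (f x - μ) ^ 2) P := by
    have h2 : ∀ x, (f x - μ) ^ 2 = (f x) ^ 2 - 2 * μ * f x + μ ^ 2 := fun x => by ring
    simp only [h2]
    exact (hi2.sub (hi1.const_mul _)).add (integrable_const _)
  have h3 := mul_meas_ge_le_integral_of_nonneg (μ := P) (f := fun x => (f x - μ) ^ 2)
    (Eventually.of_forall fun x => sq_nonneg _) hi3 (μ ^ 2)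
  refine le_trans ?_ h3
  refine mul_le_mul_of_nonneg_left ?_ (by positivity)
  refine measureReal_mono ?_
  intro x hx
  simp only [Set.mem_ofPred_eq] at hx ⊢
  rw [hx, zero_sub, neg_sq]

/-- Markov's inequality for natural numbers -/
lemma prob_one_le (P : Measure ℝ) [IsProbabilityMeasure P] {f : ℝ → ℝ} (hf : Measurable f) {K : ℝ}
    (hK : ∀ x, |f x| ≤ K) (h0 : ∀ x, 0 ≤ f x) :
    P.real {x | 1 ≤ f x} ≤ ∫ x, f x ∂P := by
  have hi1 : Integrable f P := Integrable.of_bound (C := K) hf.aestronglyMeasurable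
    (Eventually.of_forall fun x => by rw [Real.norm_eq_abs]; exact hK x)
  have h3 := mul_meas_ge_le_integral_of_nonneg (μ := P) (f := f)
    (Eventually.of_forall fun x => h0 x) hi1 1
  rwa [one_mul] at h3

/-- C5: the longest run of a digit -/
def St_C5 : Prop := ∀ (B : ℕ) (A : ℝ) (S : ℕ → Set (Measure ℝ)), Tests B A S → ∀ ε : ℝ, 0 < ε →
  ∃ N0 M0 : ℕ, ∀ M : ℕ, M0 ≤ M → ∀ P ∈ S M, ∀ b N : ℕ, 2 ≤ b → b ≤ B → N0 ≤ N →
    (N : ℝ) ≤ A * log M → ∃ U : Set ℝ, MeasurableSet U ∧ P.real U ≤ ε ∧ ∀ x ∉ U,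
      ∀ w d : ℕ, d < b →
        ((1 + ε) * log N ≤ w * log b → ∀ n < N, wd b w n x ≠ rp b w d) ∧
        (w * log b ≤ (1 - ε) * log N → ∃ n < N, wd b w n x = rp b w d)

/-! ### one window and two windows -/

/-- the words of a set at the selected places -/
noncomputable def cntS (b w N : ℕ) (g : ℕ → Prop) (R : ℕ → Prop) (x : ℝ) : ℝ :=
  open Classical in ∑ n ∈ range N, if g n ∧ R (wd b w n x) then 1 else 0

lemma cntS_def' (b w N : ℕ) (g : ℕ → Prop) (R : ℕ → Prop) [DecidablePred g] [DecidablePred R]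
    (x : ℝ) : cntS b w N g R x = ∑ n ∈ range N, if g n ∧ R (wd b w n x) then (1 : ℝ) else 0 := by
  unfold cntS
  refine sum_congr rfl fun n _ => ?_
  by_cases h : g n ∧ R (wd b w n x) <;> simp [h]

lemma cntS_eq (b w N : ℕ) (g : ℕ → Prop) (R : ℕ → Prop) [DecidablePred g] [DecidablePred R]
    (x : ℝ) :
    cntS b w N g R x = SF b w N 1 (fun n c => if g (n 0) ∧ R (c 0) then 1 else 0) x := by
  unfold cntS SF
  have h := Finset.prod_univ_sum (R := ℝ) (fun _ : Fin 1 => range N)
    (fun _ n => if g n ∧ R (wd b w n x) then (1 : ℝ) else 0)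
  simp only [univ_unique, Fin.default_eq_zero, prod_singleton, Fin.isValue] at h
  rw [← h]
  refine sum_congr rfl fun n _ => ?_
  by_cases hh : g n ∧ R (wd b w n x) <;> simp [hh]

lemma cntS_sq_eq (b w N : ℕ) (g : ℕ → Prop) (R : ℕ → Prop) [DecidablePred g] [DecidablePred R]
    (x : ℝ) :
    cntS b w N g R x ^ 2 = SF b w N 2 (fun n c => (if g (n 0) ∧ R (c 0) then 1 else 0) *
      (if g (n 1) ∧ R (c 1) then 1 else 0)) x := by
  have h0 : cntS b w N g R x = ∑ n ∈ range N, if g n ∧ R (wd b w n x) then (1 : ℝ) else 0 := by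
    unfold cntS
    refine sum_congr rfl fun n _ => ?_
    by_cases h : g n ∧ R (wd b w n x) <;> simp [h]
  rw [h0]
  unfold SF
  have h := Finset.prod_univ_sum (R := ℝ) (fun _ : Fin 2 => range N)
    (fun _ n => if g n ∧ R (wd b w n x) then (1 : ℝ) else 0)
  simp only [Fin.prod_univ_two] at h
  rw [sq, h]

lemma measurable_cntS (b w N : ℕ) (g : ℕ → Prop) (R : ℕ → Prop) : Measurable (cntS b w N g R) := by
  classical
  unfold cntS
  refine Finset.measurable_fun_sum _ fun n _ => ?_
  have : (fun x => if g n ∧ R (wd b w n x) then (1 : ℝ) else 0) =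
      (fun m : ℕ => if g n ∧ R m then (1 : ℝ) else 0) ∘ wd b w n := rfl
  rw [this]
  exact (measurable_of_countable _).comp (measurable_wd b w n)

lemma cntS_nonneg (b w N : ℕ) (g : ℕ → Prop) (R : ℕ → Prop) (x : ℝ) : 0 ≤ cntS b w N g R x := by
  classical
  unfold cntS
  exact sum_nonneg fun n _ => by split_ifs <;> simp

lemma cntS_le (b w N : ℕ) (g : ℕ → Prop) (R : ℕ → Prop) (x : ℝ) : |cntS b w N g R x| ≤ N := by
  classical
  rw [abs_of_nonneg (cntS_nonneg _ _ _ _ _ _)]
  unfold cntS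
  calc _ ≤ ∑ _n ∈ range N, (1 : ℝ) := sum_le_sum fun n _ => by split_ifs <;> simp
    _ = N := by simp

lemma int_cntS {b : ℕ} (hb : 1 ≤ b) (w N : ℕ) (g : ℕ → Prop) (R : ℕ → Prop) [DecidablePred g]
    [DecidablePred R] :
    ∫ x, cntS b w N g R x ∂Leb =
      ((range N).filter g).card * (((range (b ^ w)).filter R).card / (b : ℝ) ^ w) := by
  have hm : ∀ n, Measurable (fun x => if g n ∧ R (wd b w n x) then (1 : ℝ) else 0) := by
    intro n
    have : (fun x => if g n ∧ R (wd b w n x) then (1 : ℝ) else 0) =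
        (fun m : ℕ => if g n ∧ R m then (1 : ℝ) else 0) ∘ wd b w n := rfl
    rw [this]
    exact (measurable_of_countable _).comp (measurable_wd b w n)
  have h0 : ∀ x, cntS b w N g R x = ∑ n ∈ range N, if g n ∧ R (wd b w n x) then (1 : ℝ) else 0 := by
    intro x
    unfold cntS
    refine sum_congr rfl fun n _ => ?_
    by_cases h : g n ∧ R (wd b w n x) <;> simp [h]
  simp only [h0]
  rw [integral_finsetSum]
  · have h1 : ∀ n ∈ range N, ∫ x, (if g n ∧ R (wd b w n x) then (1 : ℝ) else 0) ∂Leb =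
        (if g n then 1 else 0) * (((range (b ^ w)).filter R).card / (b : ℝ) ^ w) := by
      intro n _
      have h2 := int_word hb w n (fun m : ℕ => if g n ∧ R m then (1 : ℝ) else 0)
      rw [h2]
      by_cases hg : g n
      · simp only [hg, true_and, if_true, one_mul]
        congr 1
        rw [card_filter]
        push_cast
        rfl
      · simp [hg]
    have h3 : ∑ n ∈ range N, (if g n then (1 : ℝ) else 0) = ((range N).filter g).card := by
      rw [card_filter]
      push_cast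
      rfl
    rw [sum_congr rfl h1, ← sum_mul, h3]
  · intro n _
    refine Integrable.of_bound (C := 1) (hm n).aestronglyMeasurable
      (Eventually.of_forall fun x => ?_)
    split_ifs <;> simp

lemma int_cntS_sq {b : ℕ} (hb : 1 ≤ b) (w N : ℕ) (g : ℕ → Prop) [DecidablePred g]
    (hg : ∀ n m, g n → g m → n < m → n + w ≤ m) {r : ℕ} (hr : r < b ^ w) :
    ∫ x, cntS b w N g (· = r) x ^ 2 ∂Leb ≤
      ((range N).filter g).card / (b : ℝ) ^ w + (((range N).filter g).card / (b : ℝ) ^ w) ^ 2 := by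
  have hb' : (0 : ℝ) < b := by exact_mod_cast hb
  have h1 : ∀ x, cntS b w N g (· = r) x ^ 2 = ∑ n ∈ (range N).filter g, ∑ m ∈ (range N).filter g,
      cnd b w n r x * cnd b w m r x := by
    intro x
    have h2 : cntS b w N g (· = r) x = ∑ n ∈ (range N).filter g, cnd b w n r x := by
      unfold cntS cnd
      rw [sum_filter]
      refine sum_congr rfl fun n _ => ?_
      by_cases hgn : g n <;> simp [hgn]
    rw [h2, sq, sum_mul_sum]
  simp only [h1]
  have hint : ∀ n m, Integrable (fun x => cnd b w n r x * cnd b w m r x) Leb := by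
    intro n m
    refine Integrable.of_bound (C := 1)
      ((measurable_cnd b w n r).mul (measurable_cnd b w m r)).aestronglyMeasurable
      (Eventually.of_forall fun x => ?_)
    rw [Real.norm_eq_abs, abs_mul]
    exact mul_le_one₀ (abs_cnd_le _ _ _ _ _) (abs_nonneg _) (abs_cnd_le _ _ _ _ _)
  rw [integral_finsetSum _ fun n _ => integrable_finsetSum _ fun m _ => hint n m]
  have h3 : ∀ n ∈ (range N).filter g, ∫ x, ∑ m ∈ (range N).filter g,
      cnd b w n r x * cnd b w m r x ∂Leb ≤
      1 / (b : ℝ) ^ w + ((range N).filter g).card * (1 / (b : ℝ) ^ w) ^ 2 := by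
    intro n hn
    rw [integral_finsetSum _ fun m _ => hint n m]
    have h4 : ∀ m ∈ (range N).filter g, ∫ x, cnd b w n r x * cnd b w m r x ∂Leb ≤
        (if m = n then 1 / (b : ℝ) ^ w else 0) + (1 / (b : ℝ) ^ w) ^ 2 := by
      intro m hm
      by_cases hmn : m = n
      · subst hmn
        rw [if_pos rfl]
        have h5 : ∀ x, cnd b w m r x * cnd b w m r x = cnd b w m r x := by
          intro x
          unfold cnd
          split_ifs <;> simp
        simp only [h5]
        rw [int_cnd hb w m hr]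
        have : 0 ≤ (1 / (b : ℝ) ^ w) ^ 2 := by positivity
        linarith
      · rw [if_neg hmn, zero_add]
        have h6 := l1 b w hb {n, m} (by
          intro a ha c hc hac
          have hga : g a := by
            rcases mem_insert.1 ha with rfl | h
            · exact (mem_filter.1 hn).2
            · rw [mem_singleton.1 h]; exact (mem_filter.1 hm).2
          have hgc : g c := by
            rcases mem_insert.1 hc with rfl | h
            · exact (mem_filter.1 hn).2
            · rw [mem_singleton.1 h]; exact (mem_filter.1 hm).2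
          exact hg a c hga hgc hac) (fun _ => r) (fun _ => hr)
        rw [card_pair (Ne.symm hmn)] at h6
        have h7 : ∀ x, ∏ k ∈ ({n, m} : Finset ℕ), cnd b w k r x = cnd b w n r x * cnd b w m r x :=
          fun x => prod_pair (Ne.symm hmn)
        simp only [h7] at h6
        exact h6.le
    refine (sum_le_sum h4).trans ?_
    rw [sum_add_distrib, sum_const, nsmul_eq_mul, sum_ite_eq', if_pos hn]
  refine (sum_le_sum h3).trans ?_
  rw [sum_const, nsmul_eq_mul]
  apply le_of_eq
  ring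

/-! ### the law -/

lemma ev_c5 (B : ℕ) {ε : ℝ} (hε : 0 < ε) : ∀ᶠ N : ℕ in atTop,
    (B : ℝ) * (N : ℝ) ^ (-ε) ≤ ε / 4 ∧
    2 * (8 * B / ε) * (log N / log 2 + 1) ≤ (N : ℝ) ^ ε ∧ 2 * (log N / log 2 + 1) ≤ N := by
  have h1 : Tendsto (fun N : ℕ => (B : ℝ) * (N : ℝ) ^ (-ε)) atTop (𝓝 ((B : ℝ) * 0)) :=
    ((tendsto_rpow_neg_atTop hε).comp tendsto_natCast_atTop_atTop).const_mul _
  rw [mul_zero] at h1
  have h2 : ∀ C a : ℝ, 0 < a → ∀ᶠ N : ℕ in atTop, C * (log N / log 2 + 1) ≤ (N : ℝ) ^ a := by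
    intro C a ha
    have e1 := log_pow_le (2 * (|C| / log 2)) 1 ha
    have e2 := log_pow_le (2 * |C|) 0 ha
    filter_upwards [e1, e2, eventually_ge_atTop 1] with N hN1 hN2 hN3
    rw [pow_one] at hN1
    rw [pow_zero, mul_one] at hN2
    have hl : 0 ≤ log (N : ℝ) := Real.log_natCast_nonneg N
    have hl2 : 0 < log 2 := Real.log_pos one_lt_two
    calc C * (log N / log 2 + 1) ≤ |C| * (log N / log 2 + 1) := by
          gcongr; exact le_abs_self C
      _ = (2 * (|C| / log 2) * log N + 2 * |C|) / 2 := by field_simp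
      _ ≤ ((N : ℝ) ^ a + (N : ℝ) ^ a) / 2 := by gcongr
      _ = (N : ℝ) ^ a := by ring
  have h3 := h2 2 1 one_pos
  filter_upwards [h1.eventually_le_const (by positivity : (0 : ℝ) < ε / 4),
    h2 (2 * (8 * B / ε)) ε hε, h3] with N a1 a2 a3
  exact ⟨a1, a2, by rwa [Real.rpow_one] at a3⟩

theorem c5 : St_C5 := by
  classical
  intro B A S hT ε hε
  obtain ⟨N1, hN1⟩ := eventually_atTop.1 (ev_c5 B hε)
  -- the transfer
  obtain ⟨D, hD⟩ : ∃ D : ℕ, 1 + ε + 1 ≤ D := exists_nat_ge _
  obtain ⟨δ1, hδ1, M1, hM1⟩ := tr B A S hT 1 (D + 1)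
  obtain ⟨δ2, hδ2, M2, hM2⟩ := tr B A S hT 2 (D + 1)
  have hsm : ∀ δ : ℝ, 0 < δ → ∀ᶠ M : ℕ in atTop, (M : ℝ) ^ (-δ) ≤ min 1 (ε / (16 * (B + 1))) := by
    intro δ hδ
    exact ((tendsto_rpow_neg_atTop hδ).comp tendsto_natCast_atTop_atTop).eventually_le_const
      (by positivity)
  obtain ⟨M3, hM3⟩ := eventually_atTop.1 ((hsm δ1 hδ1).and (hsm δ2 hδ2))
  -- `b ^ w ≤ (log M) ^ (D + 1)`
  have hlog : ∀ᶠ M : ℕ in atTop, max A 1 ^ (D : ℕ) * B ≤ log M ∧ 1 ≤ log M := by
    have h1 : Tendsto (fun M : ℕ => log (M : ℝ)) atTop atTop :=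
      Real.tendsto_log_atTop.comp tendsto_natCast_atTop_atTop
    exact (h1.eventually_ge_atTop _).and (h1.eventually_ge_atTop _)
  obtain ⟨M4, hM4⟩ := eventually_atTop.1 hlog
  refine ⟨max N1 3, max (max M1 M2) (max (max M3 M4) 2), ?_⟩
  intro M hM P hP b N hb hbB hN hNA
  have hMM1 : M1 ≤ M := le_of_max_le_left (le_of_max_le_left hM)
  have hMM2 : M2 ≤ M := le_of_max_le_right (le_of_max_le_left hM)
  have hMM3 : M3 ≤ M := le_of_max_le_left (le_of_max_le_left (le_of_max_le_right hM))
  have hMM4 : M4 ≤ M := le_of_max_le_right (le_of_max_le_left (le_of_max_le_right hM))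
  have hMM5 : 2 ≤ M := le_of_max_le_right (le_of_max_le_right hM)
  obtain ⟨s1, s2⟩ := hM3 M hMM3
  obtain ⟨g1, g2⟩ := hM4 M hMM4
  have hPp := hT.1 M (by omega) P hP
  have hNN1 : N1 ≤ N := le_of_max_le_left hN
  have hN3 : 3 ≤ N := le_of_max_le_right hN
  obtain ⟨n1, n2, n3⟩ := hN1 N hNN1
  have hNR : (3 : ℝ) ≤ N := by exact_mod_cast hN3
  have hNp : (0 : ℝ) < N := by linarith
  have hbR : (2 : ℝ) ≤ b := by exact_mod_cast hb
  have hbp : (0 : ℝ) < b := by linarith
  have hb1 : 1 ≤ b := by omega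
  have hBR : (b : ℝ) ≤ B := by exact_mod_cast hbB
  have hlb : 0 < log b := Real.log_pos (by linarith)
  have hlN : 0 < log N := Real.log_pos (by linarith)
  have hl2b : log 2 ≤ log b := Real.log_le_log (by norm_num) hbR
  have hl2 : 0 < log 2 := Real.log_pos one_lt_two
  -- the size of words
  have hsize : ∀ w : ℕ, (w : ℝ) * log b ≤ (1 + ε) * log N + log b → (b : ℝ) ^ w ≤ (log M) ^ (D + 1) := by
    intro w hw
    have h1 : (b : ℝ) ^ w ≤ (N : ℝ) ^ (1 + ε) * b := by
      rw [← Real.log_le_log_iff (by positivity) (by positivity), Real.log_pow,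
        Real.log_mul (by positivity) (by positivity), Real.log_rpow hNp]
      exact hw
    have hA1 : (N : ℝ) ≤ max A 1 * log M := hNA.trans (by gcongr; exact le_max_left _ _)
    have h2 : (N : ℝ) ^ (1 + ε) ≤ (max A 1 * log M) ^ D := by
      calc (N : ℝ) ^ (1 + ε) ≤ (N : ℝ) ^ (D : ℝ) := by
            apply Real.rpow_le_rpow_of_exponent_le (by linarith)
            linarith
        _ = (N : ℝ) ^ D := Real.rpow_natCast _ _
        _ ≤ (max A 1 * log M) ^ D := by gcongr
    calc (b : ℝ) ^ w ≤ (N : ℝ) ^ (1 + ε) * b := h1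
      _ ≤ (max A 1 * log M) ^ D * B := by gcongr
      _ = (max A 1 ^ D * B) * (log M) ^ D := by rw [mul_pow]; ring
      _ ≤ log M * (log M) ^ D := by gcongr
      _ = (log M) ^ (D + 1) := by rw [pow_succ]; ring
  -- upper part
  set w1 : ℕ := ⌈(1 + ε) * log N / log b⌉₊ with hw1
  have hw1a : (1 + ε) * log N ≤ w1 * log b := by
    have := Nat.le_ceil ((1 + ε) * log N / log b)
    rw [← hw1, div_le_iff₀ hlb] at this
    exact this
  have hw1b : (w1 : ℝ) * log b ≤ (1 + ε) * log N + log b := by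
    have := Nat.ceil_lt_add_one (a := (1 + ε) * log N / log b) (by positivity)
    rw [← hw1] at this
    have h1 : (w1 : ℝ) * log b ≤ ((1 + ε) * log N / log b + 1) * log b := by gcongr
    calc (w1 : ℝ) * log b ≤ ((1 + ε) * log N / log b + 1) * log b := h1
      _ = (1 + ε) * log N + log b := by field_simp
  set R : ℕ → Prop := fun c => ∃ d < b, c = rp b w1 d with hR
  set f1 : ℝ → ℝ := cntS b w1 N (fun _ => True) R with hf1
  have hq1 : (N : ℝ) ^ (1 + ε) ≤ (b : ℝ) ^ w1 := by
    rw [← Real.log_le_log_iff (by positivity) (by positivity), Real.log_pow, Real.log_rpow hNp]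
    exact hw1a
  have hR1 : ((range (b ^ w1)).filter R).card ≤ b := by
    have h1 : ((range (b ^ w1)).filter R) ⊆ (range b).image (rp b w1) := by
      intro c hc
      rw [mem_filter] at hc
      obtain ⟨_, d, hd, rfl⟩ := hc
      exact mem_image_of_mem _ (mem_range.2 hd)
    have h2 := (card_le_card h1).trans card_image_le
    rw [card_range] at h2
    exact h2
  have hL1 : ∫ x, f1 x ∂Leb ≤ ε / 4 := by
    rw [hf1, int_cntS hb1]
    refine (mul_le_mul_of_nonneg_right (Nat.cast_le.2 (card_filter_le _ _)) (by positivity)).trans ?_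
    rw [card_range]
    calc (N : ℝ) * (((range (b ^ w1)).filter R).card / (b : ℝ) ^ w1)
        ≤ N * (B / (N : ℝ) ^ (1 + ε)) := by
          gcongr
          exact hR1.trans hbB
      _ = B * (N : ℝ) ^ (-ε) := by
          rw [Real.rpow_add hNp, Real.rpow_one, Real.rpow_neg hNp.le]
          field_simp
      _ ≤ ε / 4 := n1
  have hP1 : ∫ x, f1 x ∂P ≤ ε / 2 := by
    have h1 := hM1 M hMM1 P hP b w1 N hb1 hbB hNA (hsize w1 hw1b)
      (fun n c => if (fun _ : ℕ => True) (n 0) ∧ R (c 0) then 1 else 0) (fun n c => by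
        split_ifs <;> simp)
    have h2 : ∀ x, f1 x = SF b w1 N 1
        (fun n c => if (fun _ : ℕ => True) (n 0) ∧ R (c 0) then 1 else 0) x :=
      fun x => cntS_eq b w1 N _ R x
    have h3 : |∫ x, f1 x ∂P - ∫ x, f1 x ∂Leb| ≤ (M : ℝ) ^ (-δ1) := by
      simp only [h2]
      exact h1
    have h4 := (abs_le.1 h3).2
    have h5 : (M : ℝ) ^ (-δ1) ≤ ε / 4 := by
      refine s1.trans ((min_le_right _ _).trans ?_)
      rw [div_le_div_iff₀ (by positivity) (by norm_num)]
      have : (0 : ℝ) ≤ B := Nat.cast_nonneg B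
      nlinarith
    linarith
  -- lower part
  set w2 : ℕ := ⌊(1 - ε) * log N / log b⌋₊ with hw2
  set J : ℕ := N / w2 with hJ
  set g : ℕ → Prop := fun n => w2 ∣ n ∧ n < w2 * J with hg
  have hB1 : (1 : ℝ) ≤ B := by linarith
  have hlow : 1 ≤ w2 → ∀ d < b, P.real {x | cntS b w2 N g (· = rp b w2 d) x = 0} ≤ ε / (2 * B) := by
    intro hw2' d hd
    have hw2p : (0 : ℝ) < w2 := by exact_mod_cast (by omega : 0 < w2)
    have hpos : 1 ≤ (1 - ε) * log N / log b := by
      by_contra hcon
      push Not at hcon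
      have : w2 = 0 := by
        rw [hw2]
        exact Nat.floor_eq_zero.2 hcon
      omega
    have hε1 : ε < 1 := by
      by_contra hcon
      push Not at hcon
      have h1 : (1 - ε) * log N / log b ≤ 0 :=
        div_nonpos_of_nonpos_of_nonneg (mul_nonpos_of_nonpos_of_nonneg (by linarith) hlN.le) hlb.le
      linarith
    have hw2a : (w2 : ℝ) * log b ≤ (1 - ε) * log N := by
      have := Nat.floor_le (a := (1 - ε) * log N / log b) (by linarith)
      rw [← hw2, le_div_iff₀ hlb] at this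
      exact this
    have hq2 : (b : ℝ) ^ w2 ≤ (N : ℝ) ^ (1 - ε) := by
      rw [← Real.log_le_log_iff (by positivity) (by positivity), Real.log_pow, Real.log_rpow hNp]
      exact hw2a
    have hw2c : (w2 : ℝ) ≤ log N / log 2 := by
      rw [le_div_iff₀ hl2]
      have h1 : (w2 : ℝ) * log 2 ≤ w2 * log b := by gcongr
      nlinarith
    -- the number of places
    have hcard : ((range N).filter g).card = J := by
      have h1 : (range N).filter g = (range J).image (fun a => w2 * a) := by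
        ext n
        simp only [mem_filter, mem_range, mem_image, hg]
        constructor
        · rintro ⟨_, ⟨a, rfl⟩, h2⟩
          exact ⟨a, Nat.lt_of_mul_lt_mul_left h2, rfl⟩
        · rintro ⟨a, ha, rfl⟩
          have h2 : w2 * a < w2 * J := Nat.mul_lt_mul_of_pos_left ha (by omega)
          have h3 : w2 * J ≤ N := Nat.mul_div_le N w2
          exact ⟨by omega, ⟨a, rfl⟩, h2⟩
      rw [h1, card_image_of_injective _ (fun a c h => Nat.eq_of_mul_eq_mul_left (by omega) h),
        card_range]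
    have hsep : ∀ n m, g n → g m → n < m → n + w2 ≤ m := by
      rintro n m ⟨⟨a, rfl⟩, _⟩ ⟨⟨c, rfl⟩, _⟩ h
      have h1 : a < c := Nat.lt_of_mul_lt_mul_left h
      calc w2 * a + w2 = w2 * (a + 1) := by ring
        _ ≤ w2 * c := Nat.mul_le_mul_left _ h1
    have hr : rp b w2 d < b ^ w2 := rp_lt hd w2
    set μ : ℝ := (J : ℝ) / (b : ℝ) ^ w2 with hμ
    have hL : ∫ x, cntS b w2 N g (· = rp b w2 d) x ∂Leb = μ := by
      rw [int_cntS hb1, hcard]
      have h1 : ((range (b ^ w2)).filter (· = rp b w2 d)).card = 1 := by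
        rw [Finset.filter_eq' , if_pos (mem_range.2 hr), card_singleton]
      rw [h1, hμ]
      push_cast
      ring
    have hL2 : ∫ x, cntS b w2 N g (· = rp b w2 d) x ^ 2 ∂Leb ≤ μ + μ ^ 2 := by
      have := int_cntS_sq hb1 w2 N g hsep hr
      rw [hcard] at this
      exact this
    have hμ1 : 8 * B / ε ≤ μ := by
      have h1 : (N : ℝ) < (J + 1) * w2 := by
        have := Nat.lt_mul_div_succ N (by omega : 0 < w2)
        rw [← hJ] at this
        have h2 : ((N : ℕ) : ℝ) < ((w2 * (J + 1) : ℕ) : ℝ) := by exact_mod_cast this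
        push_cast at h2
        linarith
      have h2 : (2 : ℝ) * w2 ≤ N := by
        have : (2 : ℝ) * w2 ≤ 2 * (log N / log 2 + 1) := by linarith
        linarith
      have h3 : (N : ℝ) ≤ 2 * w2 * J := by nlinarith
      have h4 : (N : ℝ) ^ ε * (N : ℝ) ^ (1 - ε) = N := by
        rw [← Real.rpow_add hNp]
        have : ε + (1 - ε) = 1 := by ring
        rw [this, Real.rpow_one]
      have h5 : 0 < (N : ℝ) ^ (1 - ε) := by positivity
      rw [hμ, le_div_iff₀ (by positivity)]
      have h6 : 2 * (8 * B / ε) * w2 ≤ (N : ℝ) ^ ε := by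
        refine le_trans ?_ n2
        gcongr
        linarith
      have h7 : 2 * (8 * B / ε) * w2 * (N : ℝ) ^ (1 - ε) ≤ 2 * w2 * J := by
        calc 2 * (8 * B / ε) * w2 * (N : ℝ) ^ (1 - ε) ≤ (N : ℝ) ^ ε * (N : ℝ) ^ (1 - ε) := by
              gcongr
          _ = N := h4
          _ ≤ 2 * w2 * J := h3
      have h8 : 8 * B / ε * (N : ℝ) ^ (1 - ε) ≤ J := by
        have h9 : 2 * (w2 : ℝ) * (8 * B / ε * (N : ℝ) ^ (1 - ε)) ≤ 2 * w2 * J := by
          calc 2 * (w2 : ℝ) * (8 * B / ε * (N : ℝ) ^ (1 - ε)) =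
              2 * (8 * B / ε) * w2 * (N : ℝ) ^ (1 - ε) := by ring
            _ ≤ 2 * w2 * J := h7
        exact le_of_mul_le_mul_left h9 (by positivity)
      calc 8 * B / ε * (b : ℝ) ^ w2 ≤ 8 * B / ε * (N : ℝ) ^ (1 - ε) := by gcongr
        _ ≤ J := h8
    have hμ8 : 1 ≤ μ := by
      refine le_trans ?_ hμ1
      rw [le_div_iff₀ hε]
      linarith
    have hμ0 : 0 < μ := by linarith
    have hszw : (w2 : ℝ) * log b ≤ (1 + ε) * log N + log b := by nlinarith
    have e1 : |∫ x, cntS b w2 N g (· = rp b w2 d) x ∂P -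
        ∫ x, cntS b w2 N g (· = rp b w2 d) x ∂Leb| ≤ (M : ℝ) ^ (-δ1) := by
      have key := hM1 M hMM1 P hP b w2 N hb1 hbB hNA (hsize w2 hszw)
        (fun n c => if g (n 0) ∧ c 0 = rp b w2 d then 1 else 0) (fun n c => by
        by_cases h : g (n 0) ∧ c 0 = rp b w2 d <;> simp [h])
      simp only [cntS_eq]
      exact key
    have e2 : |∫ x, cntS b w2 N g (· = rp b w2 d) x ^ 2 ∂P -
        ∫ x, cntS b w2 N g (· = rp b w2 d) x ^ 2 ∂Leb| ≤ (M : ℝ) ^ (-δ2) := by
      have key := hM2 M hMM2 P hP b w2 N hb1 hbB hNA (hsize w2 hszw)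
        (fun n c => (if g (n 0) ∧ c 0 = rp b w2 d then 1 else 0) *
          (if g (n 1) ∧ c 1 = rp b w2 d then 1 else 0)) (fun n c => by
        by_cases h : g (n 0) ∧ c 0 = rp b w2 d <;>
          by_cases h' : g (n 1) ∧ c 1 = rp b w2 d <;> simp [h, h'])
      simp only [cntS_sq_eq]
      exact key
    have h1 := prob_zero_le P (measurable_cntS b w2 N g (· = rp b w2 d))
      (cntS_le b w2 N g (· = rp b w2 d)) hμ0
    refine h1.trans ?_
    rw [hL] at e1
    have e1' := abs_le.1 e1
    have e2' := abs_le.1 e2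
    have t1 : (M : ℝ) ^ (-δ1) ≤ ε / (16 * (B + 1)) := s1.trans (min_le_right _ _)
    have t2 : (M : ℝ) ^ (-δ2) ≤ ε / (16 * (B + 1)) := s2.trans (min_le_right _ _)
    set τ : ℝ := ε / (16 * (B + 1)) with hτ
    have hτ0 : 0 < τ := by positivity
    have hnum : ∫ x, cntS b w2 N g (· = rp b w2 d) x ^ 2 ∂P -
        2 * μ * ∫ x, cntS b w2 N g (· = rp b w2 d) x ∂P + μ ^ 2 ≤ μ + τ + 2 * μ * τ := by
      have a1 : ∫ x, cntS b w2 N g (· = rp b w2 d) x ^ 2 ∂P ≤ μ + μ ^ 2 + τ := by linarith [e2'.2]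
      have a2 : μ - τ ≤ ∫ x, cntS b w2 N g (· = rp b w2 d) x ∂P := by linarith [e1'.1]
      have a3 : 2 * μ * (μ - τ) ≤ 2 * μ * ∫ x, cntS b w2 N g (· = rp b w2 d) x ∂P := by gcongr
      nlinarith
    rw [div_le_iff₀ (by positivity)]
    refine hnum.trans ?_
    have hτ1 : τ ≤ ε / (16 * B) := by
      rw [hτ]
      gcongr
      linarith
    have hεμ : 1 ≤ ε / (8 * B) * μ := by
      calc (1 : ℝ) = ε / (8 * B) * (8 * B / ε) := by field_simp
        _ ≤ ε / (8 * B) * μ := by gcongr
    have hB0 : (0 : ℝ) < B := by linarith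
    have f1' : μ ≤ ε / (8 * B) * μ ^ 2 := by nlinarith
    have f2' : τ ≤ ε / (16 * B) * μ ^ 2 := by
      have : 1 ≤ μ ^ 2 := by nlinarith
      have h0 : 0 < ε / (16 * B) := by positivity
      nlinarith
    have f3' : 2 * μ * τ ≤ 2 * (ε / (16 * B)) * μ ^ 2 := by
      have : μ ≤ μ ^ 2 := by nlinarith
      have h0 : 0 < ε / (16 * B) := by positivity
      calc 2 * μ * τ ≤ 2 * μ * (ε / (16 * B)) := by gcongr
        _ = 2 * (ε / (16 * B)) * μ := by ring
        _ ≤ 2 * (ε / (16 * B)) * μ ^ 2 := by gcongr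
    have f4' : ε / (8 * B) + ε / (16 * B) + 2 * (ε / (16 * B)) ≤ ε / (2 * B) := by
      have e : ε / (8 * B) + ε / (16 * B) + 2 * (ε / (16 * B)) = (5 / 16) * (ε / B) := by
        field_simp; ring
      have e' : ε / (2 * B) = (1 / 2) * (ε / B) := by field_simp
      rw [e, e']
      have : 0 < ε / B := by positivity
      linarith
    have hμ2 : 0 ≤ μ ^ 2 := sq_nonneg _
    nlinarith
  -- the exceptional set
  refine ⟨{x | 1 ≤ f1 x} ∪ (if 1 ≤ w2 then ⋃ d ∈ range b, {x | cntS b w2 N g (· = rp b w2 d) x = 0}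
    else ∅), ?_, ?_, ?_⟩
  · refine (measurableSet_le measurable_const (measurable_cntS _ _ _ _ _)).union ?_
    split_ifs
    · exact Finset.measurableSet_biUnion _ fun d _ =>
        measurableSet_eq_fun (measurable_cntS _ _ _ _ _) measurable_const
    · exact MeasurableSet.empty
  · refine (measureReal_union_le _ _).trans ?_
    have h1 : P.real {x | 1 ≤ f1 x} ≤ ε / 2 :=
      (prob_one_le P (measurable_cntS _ _ _ _ _) (cntS_le _ _ _ _ _) (cntS_nonneg _ _ _ _ _)).trans
        hP1
    have h2 : P.real (if 1 ≤ w2 then ⋃ d ∈ range b, {x | cntS b w2 N g (· = rp b w2 d) x = 0}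
        else ∅) ≤ ε / 2 := by
      split_ifs with h
      · refine (measureReal_biUnion_finset_le _ _).trans ?_
        calc ∑ d ∈ range b, P.real {x | cntS b w2 N g (· = rp b w2 d) x = 0}
            ≤ ∑ _d ∈ range b, ε / (2 * B) := sum_le_sum fun d hd => hlow h d (mem_range.1 hd)
          _ = b * (ε / (2 * B)) := by rw [sum_const, card_range, nsmul_eq_mul]
          _ ≤ B * (ε / (2 * B)) := by gcongr
          _ = ε / 2 := by field_simp
      · simp; positivity
    linarith
  · intro x hx w d hd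
    simp only [Set.mem_union, not_or, Set.mem_ofPred_eq, not_le] at hx
    obtain ⟨hx1, hx2⟩ := hx
    constructor
    · intro hw n hn hcon
      have hww : w1 ≤ w := by
        rw [hw1]
        apply Nat.ceil_le.2
        rw [div_le_iff₀ hlb]
        exact hw
      obtain ⟨k, rfl⟩ := Nat.exists_eq_add_of_le hww
      have h1 : wd b w1 n x = rp b w1 d := by
        rw [← wd_begin hb1 w1 k n x, hcon, rp_div hd]
      have h2 : 1 ≤ f1 x := by
        rw [hf1, cntS_def']
        have h3 : (1 : ℝ) = if True ∧ R (wd b w1 n x) then 1 else 0 := by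
          rw [if_pos ⟨trivial, d, hd, h1⟩]
        exact h3.le.trans (single_le_sum
          (f := fun n => if True ∧ R (wd b w1 n x) then (1 : ℝ) else 0)
          (fun i _ => by split_ifs <;> simp) (mem_range.2 hn))
      linarith
    · intro hw
      by_cases hw20 : 1 ≤ w2
      · rw [if_pos hw20] at hx2
        simp only [mem_range, Set.mem_iUnion, Set.mem_ofPred_eq, not_exists] at hx2
        have h3 := hx2 d hd
        have hww : w ≤ w2 := by
          rw [hw2]
          apply Nat.le_floor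
          rw [le_div_iff₀ hlb]
          exact hw
        obtain ⟨k, hk⟩ := Nat.exists_eq_add_of_le hww
        have h4 : ∃ n ∈ range N, ¬ (if g n ∧ wd b w2 n x = rp b w2 d then (1 : ℝ) else 0) = 0 := by
          by_contra hcon
          push Not at hcon
          apply h3
          rw [cntS_def']
          exact sum_eq_zero hcon
        obtain ⟨n, hn, hne⟩ := h4
        refine ⟨n, mem_range.1 hn, ?_⟩
        have h5 : g n ∧ wd b w2 n x = rp b w2 d := by
          by_contra hcon
          rw [if_neg hcon] at hne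
          exact hne rfl
        have h6 := h5.2
        rw [hk] at h6
        rw [← wd_begin hb1 w k n x, h6, rp_div hd]
      · have hw0 : w = 0 := by
          by_contra hcon
          have h1 : 1 ≤ w := Nat.one_le_iff_ne_zero.2 hcon
          apply hw20
          rw [hw2]
          apply Nat.le_floor
          rw [le_div_iff₀ hlb]
          have h2 : (1 : ℝ) ≤ w := by exact_mod_cast h1
          push_cast
          nlinarith
        subst hw0
        refine ⟨0, by omega, ?_⟩
        have h1 := wd_lt hb1 0 0 x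
        have h2 := rp_lt hd 0
        rw [pow_zero] at h1 h2
        omega

end Pool.Agent.N639.FS
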