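import Pool.Agent.Y933.KD.Dig

/-!
# Project FS: digits at the finest scale (statements)

All families of measures which pass all tests with a bounded number of digits up to the place
`A log M` (for instance `m ξ`, `m ≤ M`, `ξ` real algebraic irrational, and `√m`, `m ≤ M`): laws of
Erdős–Rényi type, Poisson law, complexity law.  `Pool.Agent.Y933.KD` (helper933) has the words
`wd b w n x`, the indicators `cnd b w n c x` and the events `Ev`.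
-/

set_option autoImplicit false

namespace Pool.Agent.N639.FS

open Finset Real MeasureTheory Pool.Agent.Y933.KD

/-- the number of the places `n < N` at which the word `c` of length `w` stands -/
noncomputable def occ (b w N c : ℕ) (x : ℝ) : ℝ := ∑ n ∈ range N, cnd b w n c x

/-- the number of different words of length `w` at the places `n < N` -/
noncomputable def dw (b w N : ℕ) (x : ℝ) : ℕ := ((range N).image (fun n => wd b w n x)).card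

/-- some word of length `w` stands at two different places `< N` -/
def Rep (b w N : ℕ) (x : ℝ) : Prop := ∃ i < N, ∃ j < N, i < j ∧ wd b w i x = wd b w j x

/-- two words of `W` never overlap in more than half of their length -/
def NoOv (b w : ℕ) (W : Finset ℕ) : Prop :=
  ∀ c ∈ W, ∀ c' ∈ W, ∀ d : ℕ, 1 ≤ d → 2 * d ≤ w → c % b ^ (w - d) ≠ c' / b ^ d

/-- all tests with boundedly many digits -/
def Tests (B : ℕ) (A : ℝ) (S : ℕ → Set (Measure ℝ)) : Prop :=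
  (∀ M : ℕ, 1 ≤ M → ∀ P ∈ S M, IsProbabilityMeasure P) ∧
  ∀ k : ℕ, ∃ δ : ℝ, 0 < δ ∧ ∃ C : ℝ, ∀ M : ℕ, 1 ≤ M → ∀ P ∈ S M, ∀ (b n : Fin k → ℕ),
    (∀ i, 1 ≤ b i ∧ b i ≤ B) → (∀ i, (n i : ℝ) ≤ A * log M) → ∀ u v : Fin k → ℝ,
    (∀ i, 0 ≤ u i) → (∀ i, v i ≤ 1) →
    |P.real (Ev b n u v) - Leb.real (Ev b n u v)| ≤ C * (M : ℝ) ^ (-δ)

/-! ## Tools -/

/-- TR: transfer of sums of functions of `k` words, words of length up to `D log log M` -/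
def St_TR : Prop := ∀ (B : ℕ) (A : ℝ) (S : ℕ → Set (Measure ℝ)), Tests B A S → ∀ k D : ℕ,
  ∃ δ : ℝ, 0 < δ ∧ ∃ M0 : ℕ, ∀ M : ℕ, M0 ≤ M → ∀ P ∈ S M, ∀ b w N : ℕ, 1 ≤ b → b ≤ B →
    (N : ℝ) ≤ A * log M → (b : ℝ) ^ w ≤ (log M) ^ D → ∀ F : (Fin k → ℕ) → (Fin k → ℕ) → ℝ,
    (∀ n c, |F n c| ≤ 1) →
    |∫ x, ∑ n ∈ Fintype.piFinset (fun _ : Fin k => range N), F n (fun i => wd b w (n i) x) ∂P -
      ∫ x, ∑ n ∈ Fintype.piFinset (fun _ : Fin k => range N), F n (fun i => wd b w (n i) x) ∂Leb|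
      ≤ (M : ℝ) ^ (-δ)

/-- L1: disjoint windows are independent -/
def St_L1 : Prop := ∀ (b w : ℕ), 1 ≤ b → ∀ T : Finset ℕ, (∀ n ∈ T, ∀ m ∈ T, n < m → n + w ≤ m) →
  ∀ c : ℕ → ℕ, (∀ n, c n < b ^ w) →
  ∫ x, ∏ n ∈ T, cnd b w n (c n) x ∂Leb = (1 / (b : ℝ) ^ w) ^ T.card

/-- L2: moments of the number of occurrences for a random real number -/
def St_L2 : Prop := ∀ (b w c s J : ℕ), 1 ≤ b → 1 ≤ w → c < b ^ w →
  ∫ x, (occ b w (w * J) c x - (w * J : ℕ) / (b : ℝ) ^ w) ^ (2 * s) ∂Leb ≤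
    6 * (2 * s).factorial * (w : ℝ) ^ (2 * s) * (1 + J / (b : ℝ) ^ w) ^ s

/-- L3: two different places -/
def St_L3 : Prop := ∀ (b w i j : ℕ), 1 ≤ b → i < j →
  Leb.real {x | wd b w i x = wd b w j x} = 1 / (b : ℝ) ^ w

/-- L5: binomial moments of the number of occurrences of words without large overlaps, for a random
real number -/
def St_L5 : Prop := ∀ (r j : ℕ) (Λ ε : ℝ), 0 < Λ → 0 < ε → ∃ w0 : ℕ, ∀ (b w N : ℕ) (W : Finset ℕ),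
  2 ≤ b → w0 ≤ w → (N : ℝ) ≤ Λ * (b : ℝ) ^ w → W ⊆ range (b ^ w) → W.card = r → NoOv b w W →
  |∫ x, ((((range N).filter (fun n => wd b w n x ∈ W)).card.choose j : ℕ) : ℝ) ∂Leb -
    (r * (N / (b : ℝ) ^ w)) ^ j / j.factorial| ≤ ε

/-! ## Laws -/

/-- C1: all words of all lengths -/
def St_C1 : Prop := ∀ (B : ℕ) (A : ℝ) (S : ℕ → Set (Measure ℝ)), Tests B A S → ∀ η : ℝ, 0 < η →
  ∀ K : ℕ, ∃ M0 : ℕ, ∀ M : ℕ, M0 ≤ M → ∀ P ∈ S M, ∃ U : Set ℝ, MeasurableSet U ∧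
    P.real U ≤ ((log M) ^ K)⁻¹ ∧
    ∀ x ∉ U, ∀ b w N c : ℕ, 2 ≤ b → b ≤ B → (N : ℝ) ≤ A * log M → c < b ^ w →
      |occ b w N c x - N / (b : ℝ) ^ w| ≤ (log M) ^ η * (1 + √(N / (b : ℝ) ^ w))

/-- C2: the longest word which is repeated -/
def St_C2 : Prop := ∀ (B : ℕ) (A : ℝ) (S : ℕ → Set (Measure ℝ)), Tests B A S → ∀ ε : ℝ, 0 < ε →
  ∃ N0 M0 : ℕ, ∀ M : ℕ, M0 ≤ M → ∀ P ∈ S M, ∀ b N : ℕ, 2 ≤ b → b ≤ B → N0 ≤ N →
    (N : ℝ) ≤ A * log M → ∃ U : Set ℝ, MeasurableSet U ∧ P.real U ≤ ε ∧ ∀ x ∉ U,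
      (∀ w : ℕ, (2 + ε) * log N ≤ w * log b → ¬ Rep b w N x) ∧
      (∀ w : ℕ, w * log b ≤ (2 - ε) * log N → Rep b w N x)

/-- C3: the Poisson law -/
def St_C3 : Prop := ∀ (B : ℕ) (A : ℝ) (S : ℕ → Set (Measure ℝ)), Tests B A S →
  ∀ (r k : ℕ) (Λ ε : ℝ), 0 < Λ → 0 < ε → ∃ N0 M0 : ℕ, ∀ M : ℕ, M0 ≤ M → ∀ P ∈ S M,
    ∀ (b w N : ℕ) (W : Finset ℕ), 2 ≤ b → b ≤ B → N0 ≤ N → (N : ℝ) ≤ A * log M →
    (N : ℝ) ≤ Λ * (b : ℝ) ^ w → (b : ℝ) ^ w ≤ Λ * N → W ⊆ range (b ^ w) → W.card = r →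
    NoOv b w W →
    |P.real {x | ((range N).filter (fun n => wd b w n x ∈ W)).card = k} -
      exp (-(r * (N / (b : ℝ) ^ w))) * (r * (N / (b : ℝ) ^ w)) ^ k / k.factorial| ≤ ε

/-- C4: the complexity law -/
def St_C4 : Prop := ∀ (B : ℕ) (A : ℝ) (S : ℕ → Set (Measure ℝ)), Tests B A S → ∀ ε : ℝ, 0 < ε →
  ∃ N0 M0 : ℕ, ∀ M : ℕ, M0 ≤ M → ∀ P ∈ S M, ∀ b N : ℕ, 2 ≤ b → b ≤ B → N0 ≤ N →
    (N : ℝ) ≤ A * log M → ∃ U : Set ℝ, MeasurableSet U ∧ P.real U ≤ ε ∧ ∀ x ∉ U, ∀ w : ℕ,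
      |(dw b w N x : ℝ) - (b : ℝ) ^ w * (1 - exp (-(N / (b : ℝ) ^ w)))| ≤
        ε * ((b : ℝ) ^ w * (1 - exp (-(N / (b : ℝ) ^ w))))

end Pool.Agent.N639.FS
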