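import Pool.Agent.N639.FS.Stm
import Pool.Agent.Y933.KD.Ren

/-!
# Project FS: the transfer principle
-/

set_option autoImplicit false

namespace Pool.Agent.N639.FS

open Finset Real MeasureTheory Pool.Agent.Y933.KD Filter Topology

/-- the indicator of a condition on `k` words as a sum over all words -/
lemma word_expand {b w k : ℕ} (hb : 1 ≤ b) (F : (Fin k → ℕ) → ℝ) (n : Fin k → ℕ) (x : ℝ) :
    F (fun i => wd b w (n i) x) = ∑ c ∈ Fintype.piFinset (fun _ : Fin k => range (b ^ w)),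
      F c * ∏ i, cnd b w (n i) (c i) x := by
  rw [Finset.sum_eq_single (fun i => wd b w (n i) x)]
  · rw [prod_eq_one, mul_one]
    intro i _
    unfold cnd
    rw [if_pos rfl]
  · intro c _ hc
    have h1 : ∃ i, c i ≠ wd b w (n i) x := by
      by_contra h
      push Not at h
      exact hc (funext h)
    obtain ⟨i, hi⟩ := h1
    rw [prod_eq_zero (mem_univ i), mul_zero]
    unfold cnd
    rw [if_neg (Ne.symm hi)]
  · intro h
    exfalso
    apply h
    rw [Fintype.mem_piFinset]
    intro i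
    exact mem_range.2 (wd_lt hb w _ x)

/-- the set on which the words are given -/
noncomputable def EvW {k : ℕ} (b w : ℕ) (n c : Fin k → ℕ) : Set ℝ :=
  Ev (fun _ : Fin k => b) n (fun i => (c i : ℝ) / (b : ℝ) ^ w)
    (fun i => ((c i : ℝ) + 1) / (b : ℝ) ^ w)

lemma measurableSet_EvW {k : ℕ} (b w : ℕ) (n c : Fin k → ℕ) : MeasurableSet (EvW b w n c) :=
  measurableSet_Ev _ _ _ _

lemma prod_cnd' {b w k : ℕ} (hb : 1 ≤ b) (n c : Fin k → ℕ) (x : ℝ) :
    ∏ i, cnd b w (n i) (c i) x = (EvW b w n c).indicator 1 x :=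
  prod_cnd hb (fun i => (n i, c i)) x

/-- the sum over all positions -/
noncomputable def SF (b w N k : ℕ) (F : (Fin k → ℕ) → (Fin k → ℕ) → ℝ) (x : ℝ) : ℝ :=
  ∑ n ∈ Fintype.piFinset (fun _ : Fin k => range N), F n (fun i => wd b w (n i) x)

lemma integral_SF {b w N k : ℕ} (hb : 1 ≤ b) (F : (Fin k → ℕ) → (Fin k → ℕ) → ℝ)
    (P : Measure ℝ) [IsProbabilityMeasure P] :
    ∫ x, SF b w N k F x ∂P = ∑ n ∈ Fintype.piFinset (fun _ : Fin k => range N),
      ∑ c ∈ Fintype.piFinset (fun _ : Fin k => range (b ^ w)), F n c * P.real (EvW b w n c) := by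
  have h1 : ∀ n c : Fin k → ℕ, Integrable (fun x => F n c * (EvW b w n c).indicator (1 : ℝ → ℝ) x) P := by
    intro n c
    refine Integrable.const_mul ?_ _
    exact (integrable_const (1 : ℝ)).indicator (measurableSet_EvW _ _ _ _)
  have h2 : ∀ x, SF b w N k F x = ∑ n ∈ Fintype.piFinset (fun _ : Fin k => range N),
      ∑ c ∈ Fintype.piFinset (fun _ : Fin k => range (b ^ w)),
        F n c * (EvW b w n c).indicator (1 : ℝ → ℝ) x := by
    intro x
    unfold SF
    refine sum_congr rfl fun n _ => ?_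
    rw [word_expand hb (F n) n x]
    exact sum_congr rfl fun c _ => by rw [prod_cnd' hb]
  simp only [h2]
  rw [integral_finsetSum _ fun n _ => integrable_finsetSum _ fun c _ => h1 n c]
  refine sum_congr rfl fun n _ => ?_
  rw [integral_finsetSum _ fun c _ => h1 n c]
  refine sum_congr rfl fun c _ => ?_
  rw [MeasureTheory.integral_const_mul, integral_indicator_one (measurableSet_EvW _ _ _ _)]

/-- comparison of two measures -/
lemma SF_diff {b w N k : ℕ} (hb : 1 ≤ b) {F : (Fin k → ℕ) → (Fin k → ℕ) → ℝ}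
    (hF : ∀ n c, |F n c| ≤ 1) (P Q : Measure ℝ) [IsProbabilityMeasure P] [IsProbabilityMeasure Q]
    {Δ : ℝ} (h : ∀ (n : Fin k → ℕ) (u v : Fin k → ℝ), (∀ i, n i < N) → (∀ i, 0 ≤ u i) →
      (∀ i, v i ≤ 1) → |P.real (Ev (fun _ => b) n u v) - Q.real (Ev (fun _ => b) n u v)| ≤ Δ) :
    |∫ x, SF b w N k F x ∂P - ∫ x, SF b w N k F x ∂Q| ≤ (N * (b : ℝ) ^ w) ^ k * Δ := by
  have hb' : (0 : ℝ) < b := by exact_mod_cast hb
  rw [integral_SF hb, integral_SF hb, ← sum_sub_distrib]
  refine (Finset.abs_sum_le_sum_abs _ _).trans ?_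
  have key : ∀ n ∈ Fintype.piFinset (fun _ : Fin k => range N),
      |∑ c ∈ Fintype.piFinset (fun _ : Fin k => range (b ^ w)), F n c * P.real (EvW b w n c) -
        ∑ c ∈ Fintype.piFinset (fun _ : Fin k => range (b ^ w)), F n c * Q.real (EvW b w n c)| ≤
      ((b : ℝ) ^ w) ^ k * Δ := by
    intro n hn
    rw [Fintype.mem_piFinset] at hn
    rw [← sum_sub_distrib]
    refine (Finset.abs_sum_le_sum_abs _ _).trans ?_
    calc _ ≤ ∑ _c ∈ Fintype.piFinset (fun _ : Fin k => range (b ^ w)), Δ := by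
          refine sum_le_sum fun c hc => ?_
          rw [Fintype.mem_piFinset] at hc
          rw [← mul_sub, abs_mul]
          have h1 : |P.real (EvW b w n c) - Q.real (EvW b w n c)| ≤ Δ := by
            unfold EvW
            refine h n _ _ (fun i => mem_range.1 (hn i)) (fun i => by positivity) (fun i => ?_)
            have := mem_range.1 (hc i)
            rw [div_le_one (by positivity)]
            exact_mod_cast this
          calc |F n c| * |P.real (EvW b w n c) - Q.real (EvW b w n c)| ≤ 1 * Δ :=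
                mul_le_mul (hF n c) h1 (abs_nonneg _) zero_le_one
            _ = Δ := one_mul _
      _ = ((b : ℝ) ^ w) ^ k * Δ := by
          rw [sum_const, Fintype.card_piFinset]
          simp only [card_range, prod_const, card_univ, Fintype.card_fin, nsmul_eq_mul]
          push_cast
          rfl
  refine (sum_le_sum key).trans ?_
  rw [sum_const, Fintype.card_piFinset]
  simp only [card_range, prod_const, card_univ, Fintype.card_fin, nsmul_eq_mul]
  push_cast
  rw [mul_pow, mul_assoc]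

lemma log_pow_le (C : ℝ) (m : ℕ) {δ : ℝ} (hδ : 0 < δ) :
    ∀ᶠ M : ℕ in atTop, C * (log M) ^ m ≤ (M : ℝ) ^ δ := by
  have h1 : Tendsto (fun x : ℝ => C * (log x ^ m / x ^ δ)) atTop (𝓝 (C * 0)) := by
    have h2 := (isLittleO_pow_log_id_atTop (n := m)).tendsto_div_nhds_zero
    have h3 : Tendsto (fun x : ℝ => log x ^ m / x ^ δ) atTop (𝓝 0) := by
      have h4 := isLittleO_log_rpow_rpow_atTop (s := δ) (m : ℝ) hδ
      have h5 := h4.tendsto_div_nhds_zero
      refine h5.congr' ?_
      filter_upwards [eventually_ge_atTop 1] with x hx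
      rw [Real.rpow_natCast]
    exact h3.const_mul C
  rw [mul_zero] at h1
  have h2 := h1.comp tendsto_natCast_atTop_atTop
  filter_upwards [h2.eventually_le_const zero_lt_one, eventually_ge_atTop 1] with M hM hM1
  simp only [Function.comp_apply] at hM
  have hMp : (0 : ℝ) < M := by exact_mod_cast hM1
  have h3 : (0 : ℝ) < (M : ℝ) ^ δ := by positivity
  rw [mul_div_assoc', div_le_one h3] at hM
  exact hM

theorem tr : St_TR := by
  intro B A S hT k D
  obtain ⟨hS, hT⟩ := hT
  obtain ⟨δ, hδ, C, hC⟩ := hT k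
  refine ⟨δ / 2, by positivity, ?_⟩
  have hev := log_pow_le ((max A 1) ^ k * max C 0) (k + D * k) (δ := δ / 2) (by positivity)
  obtain ⟨M1, hM1⟩ := eventually_atTop.1 hev
  refine ⟨max M1 3, ?_⟩
  intro M hM P hP b w N hb hbB hN hw F hF
  have hMM1 : M1 ≤ M := le_of_max_le_left hM
  have hM3 : 3 ≤ M := le_of_max_le_right hM
  have := hS M (by omega) P hP
  have hMp : (0 : ℝ) < M := by exact_mod_cast (by omega : 0 < M)
  have hlog : 1 ≤ log M := by
    rw [Real.le_log_iff_exp_le hMp]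
    have h1 : (3 : ℝ) ≤ M := by exact_mod_cast hM3
    have h2 := Real.exp_one_lt_d9
    linarith
  have key := SF_diff (w := w) (N := N) hb hF P Leb (Δ := C * (M : ℝ) ^ (-δ)) (by
    intro n u v hn hu hv
    refine hC M (by omega) P hP (fun _ => b) n (fun _ => ⟨hb, hbB⟩) (fun i => ?_) u v hu hv
    have : (n i : ℝ) ≤ N := by exact_mod_cast (hn i).le
    exact this.trans hN)
  refine (le_trans (le_of_eq rfl) key).trans ?_
  have hNb : (N : ℝ) * (b : ℝ) ^ w ≤ max A 1 * (log M) ^ (1 + D) := by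
    calc (N : ℝ) * (b : ℝ) ^ w ≤ (A * log M) * (log M) ^ D :=
          mul_le_mul hN hw (by positivity) ((Nat.cast_nonneg N).trans hN)
      _ ≤ (max A 1 * log M) * (log M) ^ D := by gcongr; exact le_max_left _ _
      _ = max A 1 * (log M) ^ (1 + D) := by rw [pow_add, pow_one]; ring
  have h1 : ((N : ℝ) * (b : ℝ) ^ w) ^ k ≤ (max A 1) ^ k * (log M) ^ (k + D * k) := by
    calc ((N : ℝ) * (b : ℝ) ^ w) ^ k ≤ (max A 1 * (log M) ^ (1 + D)) ^ k := by gcongr
      _ = (max A 1) ^ k * (log M) ^ (k + D * k) := by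
          rw [mul_pow, ← pow_mul]; congr 2; ring
  have h2 := hM1 M hMM1
  calc ((N : ℝ) * (b : ℝ) ^ w) ^ k * (C * (M : ℝ) ^ (-δ))
      ≤ ((N : ℝ) * (b : ℝ) ^ w) ^ k * (max C 0 * (M : ℝ) ^ (-δ)) := by
        gcongr; exact le_max_left _ _
    _ ≤ ((max A 1) ^ k * (log M) ^ (k + D * k)) * (max C 0 * (M : ℝ) ^ (-δ)) := by gcongr
    _ = ((max A 1) ^ k * max C 0 * (log M) ^ (k + D * k)) * (M : ℝ) ^ (-δ) := by ring
    _ ≤ (M : ℝ) ^ (δ / 2) * (M : ℝ) ^ (-δ) := by gcongr
    _ = (M : ℝ) ^ (-(δ / 2)) := by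
        rw [← Real.rpow_add hMp]; congr 1; ring

end Pool.Agent.N639.FS
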